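import Mathlib
import Pool.Agent.H767R2.Final379

set_option autoImplicit false

/-!
# `d_min(𝒫)` and `d^W_min(𝒫)` differ

For the family `𝒫 = {t, 2t, 3t, 4t, t³ - 2t², t³ + 2t, t³ + 2t²}` one has `d^W_min(𝒫) ≤ 3 < d_min(𝒫)`.
-/

namespace Pool.Agent.Results.MP_379c13_an.WeylDegreeCounterexample

open Pool.Agent.H767R2 MeasureTheory Filter Topology Polynomial
open scoped ENNReal

/-- The family `t, 2t, 3t, 4t, t³ - 2t², t³ + 2t, t³ + 2t²`. -/
noncomputable def family : Finset ℤ[X] :=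
  {X, 2 * X, 3 * X, 4 * X, X ^ 3 - 2 * X ^ 2, X ^ 3 + 2 * X, X ^ 3 + 2 * X ^ 2}

/-- The family `𝒫 = {t, 2t, 3t, 4t, t³ - 2t², t³ + 2t, t³ + 2t²}` is essentially distinct and
`d^W_min(𝒫) ≤ 3 < 4 ≤ d_min(𝒫)`. In detail:
* on every Weyl system the Host–Kra factor `𝒵_3` exists and is characteristic for `𝒫`, and `A_N → 0` in `L²`
  whenever `|||f_p|||_4 = 0` for some `p`;
* there are an invertible measure preserving system and bounded functions such that
  `|||f_{4t}|||_{d+1} = 0` for all `d ≤ 3` while `A_N` does not tend to `0` in `L²`; no Host–Kra factor of order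
  at most `3` of this system is characteristic for `𝒫`. -/
theorem result :
    EssentiallyDistinct family ∧ dWMin family < dMin family ∧ dWMin family ≤ 3 ∧ 4 ≤ dMin family ∧
    (∀ W : WeylSystem,
      (∃ 𝒵 : MeasurableSpace (Fin W.D → UnitAddCircle), IsHKFactor 𝒵 (haarT W.D) W.T 3) ∧
      (∀ 𝒵 : MeasurableSpace (Fin W.D → UnitAddCircle),
        IsHKFactor 𝒵 (haarT W.D) W.T 3 → IsCharacteristic 𝒵 (haarT W.D) W.T family) ∧
      ∀ f : ℤ[X] → (Fin W.D → UnitAddCircle) → ℂ, (∀ p ∈ family, MemLp (f p) ∞ (haarT W.D)) →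
        (∃ p ∈ family, hk (haarT W.D) W.T 3 (f p) = 0) →
        Tendsto (fun N : ℕ => eLpNorm (polyAvg W.T family f N) 2 (haarT W.D)) atTop (𝓝 0)) ∧
    ∃ S : MPSystem,
      (∃ f : ℤ[X] → S.X → ℂ, (∀ p ∈ family, MemLp (m0 := S.mX) (f p) ∞ S.μ) ∧ 4 * X ∈ family ∧
        (∀ d ≤ 3, @hk S.X S.mX S.μ S.T d (f (4 * X)) = 0) ∧
        ¬ Tendsto (fun N : ℕ => eLpNorm (polyAvg S.T family f N) 2 S.μ) atTop (𝓝 0)) ∧
      ∀ d ≤ 3, ∀ 𝒵 : MeasurableSpace S.X, IsHKFactor (m₀ := S.mX) 𝒵 S.μ S.T d →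
        ¬ IsCharacteristic (m₀ := S.mX) 𝒵 S.μ S.T family := by
  have hfam : family = P0 := P0_eq.symm
  rw [hfam]
  refine ⟨essentiallyDistinct_P0, ?_, dWMin_le, four_le_dMin, fun W => ⟨W.exists_hkFactor 3, fun 𝒵 h =>
    characteristic_weyl W 𝒵 h, fun f hf ⟨p, hp, h0⟩ => weyl_seminorm W f hf p hp h0⟩, sys0, ?_, fun d hd 𝒵 h𝒵 =>
    not_characteristic d hd 𝒵 h𝒵⟩
  · refine lt_of_le_of_lt dWMin_le (lt_of_lt_of_le ?_ four_le_dMin)
    norm_num
  · have h3 : (4 * X : ℤ[X]) = pf 3 := rfl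
    refine ⟨fP, memLp_fP, ?_, ?_, ?_⟩
    · rw [h3]
      exact (mem_P0 _).mpr ⟨3, rfl⟩
    · intro d hd
      rw [h3]
      exact hk_fP d hd
    · intro hlim
      have h4 : ENNReal.ofReal cc ≤ 0 := by
        refine ge_of_tendsto hlim ?_
        filter_upwards [eventually_gt_atTop 0] with N hN
        exact polyAvg_lower N hN
      exact absurd h4 (not_le.mpr (ENNReal.ofReal_pos.mpr cc_pos))

end Pool.Agent.Results.MP_379c13_an.WeylDegreeCounterexample
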